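import Pool.Agent.H616.Om.Fin

set_option autoImplicit false

/-!
# Independence of functions of `Ω` along infinite sequences of shifts, and infinite matrices of values

The values of `Ω` are coloured, with finitely many colours, and a different colouring `c i` may be used for each
shift. Q1 predicts that the colours of `Ω(n + x 0), Ω(n + x 1), ...` are asymptotically independent for all shifts.

(1) Every infinite set `S` of shifts contains an infinite subset `x 0 < x 1 < ...` such that the colours of all the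
`Ω(n + x i)`, and an arbitrary sequence `ξ(n)` with finitely many values, are independent up to `δ` in total
variation, for all numbers `k` of shifts, at all the large scales of a set of upper logarithmic density `1 - δ`.
(2) Let each colour have positive lower frequency, and let `A 0, ..., A (r - 1)` be sets of positive upper logarithmic
density. Then there are `x 0 < x 1 < ...`, each in the prescribed one of these sets, such that ALL the colours of the
`Ω(x i + x k)`, `i < k`, are prescribed in advance, and each pattern of colours at `x 0, ..., x (k - 1)`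
has positive upper density in each `A t`. (3) In particular `Ω(x i + x k) ≡ ε i k` modulo prescribed moduli.

Library used: the correlations of functions of `Ω` with arbitrary sequences (starting file `ArbitraryEvents`, from the
two-point theorem at almost all scales), and the mean value of `z ^ Ω` (starting file `BlockProducts`).

From Mathlib: `ArithmeticFunction.cardFactors n`: the number of prime factors with multiplicity; `StrictMono x`:
`x 0 < x 1 < ...`; `∃ᶠ N in atTop`: for arbitrarily large `N`; `∀ᶠ N in atTop`: for all large `N`;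
`Fintype.piFinset fun i : Fin k => range (q i)`: the vectors `l` with `l i < q i` for all `i < k`.
-/

namespace Pool.Agent.Results.MP_e0aac0_nt.InfiniteShiftSets
open Finset Filter Topology

/-- `Ω(n)` -/
def Om (n : ℕ) : ℕ := ArithmeticFunction.cardFactors n

open Classical in
/-- the proportion of the `n ∈ {1, ..., N}` with the property `P` -/
noncomputable def freq (P : ℕ → Prop) (N : ℕ) : ℝ := (((Icc 1 N).filter P).card : ℝ) / N

open Classical in
/-- the upper logarithmic density of `E` is at least `a`: for arbitrarily large `X` the sum of `1 / N` over the `N ≤ X`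
in `E` is at least `a log X` -/
def UpperLog (a : ℝ) (E : Set ℕ) : Prop :=
  ∃ᶠ X : ℕ in atTop, a * Real.log X ≤ ∑ N ∈ Icc 1 X, if N ∈ E then (1 : ℝ) / N else 0

/-- the distance, at the scale `N`, of the joint law of `ξ(n)` and the colours of `Ω(n + x i)`, `i < k`, and of the
product of the laws of `ξ(n)` and of the colours of `Ω(n)`: the sum over all values `s` of `ξ` and all vectors `l` of
colours -/
noncomputable def distance {Q : ℕ} (ξ : ℕ → Fin Q) (q : ℕ → ℕ) (c : ℕ → ℕ → ℕ) (x : ℕ → ℕ) (k N : ℕ) : ℝ :=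
  ∑ s : Fin Q, ∑ l ∈ Fintype.piFinset (fun i : Fin k => range (q i)),
    |freq (fun n => ξ n = s ∧ ∀ i : Fin k, c i (Om (n + x i)) = l i) N -
      freq (fun n => ξ n = s) N * ∏ i : Fin k, freq (fun n => c i (Om n) = l i) N|

/-- The colouring `c i` has the colours `0, ..., q i - 1`. -/
theorem result :
    -- (1) every infinite set of shifts
    (∀ (q : ℕ → ℕ) (c : ℕ → ℕ → ℕ), (∀ i l, c i l < q i) → ∀ (Q : ℕ) (ξ : ℕ → Fin Q) (S : Set ℕ), S.Infinite →
      ∀ δ : ℝ, 0 < δ → ∃ x : ℕ → ℕ, StrictMono x ∧ (∀ k, x k ∈ S) ∧ ∃ G : Set ℕ, UpperLog (1 - δ) G ∧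
        ∀ k, ∃ N₀ : ℕ, ∀ N ∈ G, N₀ ≤ N → distance ξ q c x k N ≤ δ) ∧
    -- (2) prescribed colours of all `Ω(x i + x k)`
    (∀ (q : ℕ → ℕ) (c : ℕ → ℕ → ℕ), (∀ i l, c i l < q i) →
      (∀ i, ∃ ρ : ℝ, 0 < ρ ∧ ∀ᶠ N in atTop, ∀ a < q i, ρ ≤ freq (fun n => c i (Om n) = a) N) →
      ∀ (r : ℕ) (A : Fin r → Set ℕ), (∀ t, ∃ κ : ℝ, 0 < κ ∧ UpperLog κ (A t)) →
      ∀ (τ : ℕ → Fin r) (ε : ℕ → ℕ → ℕ), (∀ i k, ε i k < q i) →
      ∃ x : ℕ → ℕ, StrictMono x ∧ (∀ k, x k ∈ A (τ k)) ∧ (∀ i k, i < k → c i (Om (x i + x k)) = ε i k) ∧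
        ∀ t k (l : ℕ → ℕ), (∀ i, l i < q i) → ∃ ρ : ℝ, 0 < ρ ∧
          ∃ᶠ N : ℕ in atTop, ρ ≤ freq (fun y => y ∈ A t ∧ ∀ i < k, c i (Om (y + x i)) = l i) N) ∧
    -- (3) prescribed residues of all `Ω(x i + x k)`
    (∀ (m : ℕ → ℕ), (∀ i, 1 ≤ m i) → ∀ (r : ℕ) (A : Fin r → Set ℕ), (∀ t, ∃ κ : ℝ, 0 < κ ∧ UpperLog κ (A t)) →
      ∀ (τ : ℕ → Fin r) (ε : ℕ → ℕ → ℕ),
      ∃ x : ℕ → ℕ, StrictMono x ∧ (∀ k, x k ∈ A (τ k)) ∧ ∀ i k, i < k → Om (x i + x k) ≡ ε i k [MOD m i]) := by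
  classical
  have h2 : ∀ (q : ℕ → ℕ) (c : ℕ → ℕ → ℕ), (∀ i l, c i l < q i) →
      (∀ i, ∃ ρ : ℝ, 0 < ρ ∧ ∀ᶠ N in atTop, ∀ a < q i, ρ ≤ freq (fun n => c i (Om n) = a) N) →
      ∀ (r : ℕ) (A : Fin r → Set ℕ), (∀ t, ∃ κ : ℝ, 0 < κ ∧ UpperLog κ (A t)) →
      ∀ (τ : ℕ → Fin r) (ε : ℕ → ℕ → ℕ), (∀ i k, ε i k < q i) →
      ∃ x : ℕ → ℕ, StrictMono x ∧ (∀ k, x k ∈ A (τ k)) ∧ (∀ i k, i < k → c i (Om (x i + x k)) = ε i k) ∧
        ∀ t k (l : ℕ → ℕ), (∀ i, l i < q i) → ∃ ρ : ℝ, 0 < ρ ∧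
          ∃ᶠ N : ℕ in atTop, ρ ≤ freq (fun y => y ∈ A t ∧ ∀ i < k, c i (Om (y + x i)) = l i) N :=
    fun q c hc hρ r A hA τ ε hε => Pool.Agent.H616.Om.part2 r q c hc A hA hρ τ ε hε
  refine ⟨?_, h2, ?_⟩
  · intro q c hc Q ξ S hS δ hδ
    obtain ⟨D, rfl, rfl, rfl, x, h3, h4, G, h5, h6⟩ := Pool.Agent.H616.Om.part1 ξ q c hc S hS δ hδ
    exact ⟨x, h3, h4, G, h5, h6⟩
  · intro m hm r A hA τ ε
    obtain ⟨x, h3, h4, h5, _⟩ := h2 m (fun i l => l % m i) (fun i l => Nat.mod_lt _ (hm i))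
      (fun i => Pool.Agent.H616.Om.mod_dens (m i) (hm i)) r A hA τ (fun i k => ε i k % m i)
      (fun i k => Nat.mod_lt _ (hm i))
    exact ⟨x, h3, h4, fun i k hik => h5 i k hik⟩

end Pool.Agent.Results.MP_e0aac0_nt.InfiniteShiftSets
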