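import Pool.Agent.H201.PW.Frozen

/-!
# Independence of the values of `Ω` at consecutive integers and one-sided bounds with
# subexponential constants, on one set of values

Let `P` be the law of `(Ω(n), …, Ω(n + k - 1))`, where `n` is uniform in `{1, …, N}`, and `Q` the law
of `(Ω(m_1), …, Ω(m_k))`, where the `m_i` are independent and uniform in `{1, …, N}`. Q1 asserts that
`P` and `Q` are asymptotically equal in total variation, for every `k`. It is known (library,
`MP_e0aac0_nt.UniformlyAbsolutelyContinuous`) that `P(S) ≤ C Q(S) + ε` for all sets `S` of `k`-tuples,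
where `C` depends on `k` and `ε`. We prove: for arbitrary sets `V N` of values with
`#{n ≤ N : Ω(n) ∈ V N} ≥ κ N`, `κ > 0` (for instance: all values, or the even values, or one half of
the values below `log log N`), Q1 holds if and only if for every `ε > 0` there are arbitrarily large
`k` such that for all large `N`

* (`Subexponential`) `P(S) ≤ e^(ε k) Q(S) + ε` for all sets `S` of `k`-tuples with first entry in
  `V N`; or, equivalently,
* (`NoHotWords`) all but at most `ε N` of the `n ≤ N` with `Ω(n) ∈ V N` are such that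
  `P{u} ≤ e^(ε k) Q{u}` for the word `u = (Ω(n), …, Ω(n + k - 1))`.

The same holds for every arithmetic function with values in any set in the place of `Ω`, for all
nonincreasing weights with a divergent sum (for example logarithmic averages), along every filter of
scales `N`, and for conditions on the first `M` values.

The proof is elementary: large deviations for the product law (`Pool.Agent.H201.PW.badset`, uniform
in the alphabet and in the weights of the letters), and a greedy decomposition of `{1, …, N}` into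
intervals of length `k` (`Pool.Agent.H201.NC.cover`).
-/

set_option autoImplicit false

namespace Pool.Agent.Results.MP_e0aac0_nt.SubexponentialConstants

open Finset Filter Topology
open ArithmeticFunction (cardFactors)

variable {α : Type}

/-- Q1 of the problem (this is the frozen statement S18733). -/
def Q1 : Prop :=
  ∀ k : ℕ, Tendsto
    (fun N : ℕ => ∑' ℓ : Fin k → ℕ,
      |(1 / (N : ℝ)) *
          (((Finset.Icc 1 N).filter
            (fun n => ∀ i : Fin k, cardFactors (n + (i : ℕ)) = ℓ i + 1)).card : ℝ)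
        - ∏ i : Fin k,
            ((1 / (N : ℝ)) *
              (((Finset.Icc 1 N).filter
                (fun n => cardFactors n = ℓ i + 1)).card : ℝ))|)
    atTop (nhds 0)

/-- Weights: positive, nonincreasing, with a divergent sum. -/
def IsWeight (w : ℕ → ℝ) : Prop :=
  (∀ n, 0 < w n) ∧ Antitone w ∧ Tendsto (fun N => ∑ n ∈ Icc 1 N, w n) atTop atTop

open Classical in
/-- The law of `(f n, …, f (n + k - 1))`, where `n ∈ {1, …, N}` is chosen with the weights `w n`. -/
noncomputable def joint (w : ℕ → ℝ) (f : ℕ → α) (N k : ℕ) (S : Set (Fin k → α)) : ℝ :=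
  (∑ n ∈ (Icc 1 N).filter fun n => (fun i : Fin k => f (n + i)) ∈ S, w n) / ∑ n ∈ Icc 1 N, w n

open Classical in
/-- The law of `(f m_1, …, f m_k)`, where the `m_i ∈ {1, …, N}` are chosen independently with the
weights `w (m_i)`. -/
noncomputable def product (w : ℕ → ℝ) (f : ℕ → α) (N k : ℕ) (S : Set (Fin k → α)) : ℝ :=
  (∑ m ∈ (Fintype.piFinset fun _ : Fin k => Icc 1 N).filter fun m => (fun i => f (m i)) ∈ S,
    ∏ i, w (m i)) / (∑ n ∈ Icc 1 N, w n) ^ k

/-- The values of `f` at `k` consecutive integers are asymptotically independent, in total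
variation, for every `k`. -/
def Independent (w : ℕ → ℝ) (f : ℕ → α) (l : Filter ℕ) : Prop :=
  ∀ k : ℕ, 1 ≤ k → ∀ δ : ℝ, 0 < δ → ∀ᶠ N in l, ∀ S : Set (Fin k → α),
    |joint w f N k S - product w f N k S| ≤ δ

/-- The joint law gives `W N` asymptotically at least its weight in the product law. -/
def AtLeast (w : ℕ → ℝ) (f : ℕ → α) (l : Filter ℕ) {M : ℕ} (W : ℕ → Set (Fin M → α)) : Prop :=
  ∀ δ : ℝ, 0 < δ → ∀ᶠ N in l, product w f N M (W N) - δ ≤ joint w f N M (W N)

/-- The words of length `k` whose first `M` letters form a word of `W`. -/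
def Begin {M : ℕ} (W : Set (Fin M → α)) (k : ℕ) : Set (Fin k → α) :=
  {u | ∃ h : M ≤ k, (fun j : Fin M => u (Fin.castLE h j)) ∈ W}

/-- One-sided bounds with subexponential constants on the words which begin with a word of `W N`,
for arbitrarily long words. -/
def Subexponential (w : ℕ → ℝ) (f : ℕ → α) (l : Filter ℕ) {M : ℕ} (W : ℕ → Set (Fin M → α)) :
    Prop :=
  ∀ ε : ℝ, 0 < ε → ∀ K : ℕ, ∃ k ≥ K, ∀ᶠ N in l, ∀ S ⊆ Begin (W N) k,
    joint w f N k S ≤ Real.exp (ε * k) * product w f N k S + ε

/-- Words which begin with a word of `W N` and are much more frequent than expected are rare. -/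
def NoHotWords (w : ℕ → ℝ) (f : ℕ → α) (l : Filter ℕ) {M : ℕ} (W : ℕ → Set (Fin M → α)) :
    Prop :=
  ∀ ε : ℝ, 0 < ε → ∀ K : ℕ, ∃ k ≥ K, ∀ᶠ N in l,
    joint w f N k {u | u ∈ Begin (W N) k ∧
      Real.exp (ε * k) * product w f N k {u} < joint w f N k {u}} ≤ ε

/-- The words of length one with letter in `V`. -/
def Letters (V : ℕ → Set α) (N : ℕ) : Set (Fin 1 → α) := {u | u 0 ∈ V N}

/-- Natural weights. -/
def one : ℕ → ℝ := fun _ => 1

theorem general (f : ℕ → α) {w : ℕ → ℝ} (hw : IsWeight w) {l : Filter ℕ} (hl : l ≤ atTop)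
    {M : ℕ} (hM : 1 ≤ M) {W : ℕ → Set (Fin M → α)} {κ : ℝ} (hκ : 0 < κ)
    (hW : ∀ᶠ N in l, κ ≤ product w f N M (W N)) :
    (Independent w f l ↔ AtLeast w f l W ∧ Subexponential w f l W) ∧
    (Independent w f l ↔ AtLeast w f l W ∧ NoHotWords w f l W) :=
  Pool.Agent.H201.PW.independent_iff ⟨hw.1, hw.2.1, hw.2.2⟩ f hl hM hκ hW

theorem letters (f : ℕ → α) {w : ℕ → ℝ} (hw : IsWeight w) {l : Filter ℕ} (hl : l ≤ atTop)
    {V : ℕ → Set α} {κ : ℝ} (hκ : 0 < κ)
    (hV : ∀ᶠ N in l, κ ≤ product w f N 1 (Letters V N)) :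
    (Independent w f l ↔ Subexponential w f l (Letters V)) ∧
    (Independent w f l ↔ NoHotWords w f l (Letters V)) := by
  obtain ⟨h1, h2⟩ := general f hw hl le_rfl hκ hV
  have h3 : AtLeast w f l (Letters V) := by
    intro δ hδ
    refine Eventually.of_forall fun N => ?_
    have h4 : joint w f N 1 (Letters V N) = product w f N 1 (Letters V N) :=
      Pool.Agent.H201.PW.one_place w f N (V N)
    rw [h4]
    linarith
  exact ⟨h1.trans ⟨fun h => h.2, fun h => ⟨h3, h⟩⟩, h2.trans ⟨fun h => h.2, fun h => ⟨h3, h⟩⟩⟩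

theorem isWeight_one : IsWeight one :=
  ⟨Pool.Agent.H201.PW.weight_one.pos, Pool.Agent.H201.PW.weight_one.anti,
    Pool.Agent.H201.PW.weight_one.lim⟩

theorem q1_iff : Q1 ↔ Independent one (fun n => cardFactors n) atTop :=
  Pool.Agent.H201.PW.total_iff (f := fun n => cardFactors n) (by
    intro n hn h
    rcases ArithmeticFunction.cardFactors_eq_zero_iff_eq_zero_or_one.mp h with h1 | h1
    · omega
    · exact h1)

open Classical in
/-- the product law of a set of letters -/
theorem product_letters (f : ℕ → α) (V : ℕ → Set α) (N : ℕ) :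
    product one f N 1 (Letters V N) = (((Icc 1 N).filter fun n => f n ∈ V N).card : ℝ) / N := by
  have h1 : joint one f N 1 (Letters V N) = product one f N 1 (Letters V N) :=
    Pool.Agent.H201.PW.one_place one f N (V N)
  rw [← h1]
  unfold joint Letters one
  rw [sum_const, sum_const, nsmul_eq_mul, nsmul_eq_mul, mul_one, mul_one, Nat.card_Icc,
    Nat.add_sub_cancel]
  rfl

open Classical in
/-- **Independence and one-sided bounds with subexponential constants.** -/
theorem result :
    -- Q1, with one set of values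
    (∀ (V : ℕ → Set ℕ) (κ : ℝ), 0 < κ →
      (∀ᶠ N : ℕ in atTop, κ * N ≤ ((Icc 1 N).filter fun n => cardFactors n ∈ V N).card) →
      (Q1 ↔ Subexponential one (fun n => cardFactors n) atTop (Letters V)) ∧
      (Q1 ↔ NoHotWords one (fun n => cardFactors n) atTop (Letters V))) ∧
    -- arbitrary functions, weights and scales, with one set of values
    (∀ (α : Type) (f : ℕ → α) (w : ℕ → ℝ), IsWeight w → ∀ l : Filter ℕ, l ≤ atTop →
      ∀ (V : ℕ → Set α) (κ : ℝ), 0 < κ →
      (∀ᶠ N in l, κ * ∑ n ∈ Icc 1 N, w n ≤ ∑ n ∈ (Icc 1 N).filter fun n => f n ∈ V N, w n) →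
      (Independent w f l ↔ Subexponential w f l (Letters V)) ∧
      (Independent w f l ↔ NoHotWords w f l (Letters V))) ∧
    -- the same with a set of words
    (∀ (α : Type) (f : ℕ → α) (w : ℕ → ℝ), IsWeight w → ∀ l : Filter ℕ, l ≤ atTop →
      ∀ (M : ℕ), 1 ≤ M → ∀ (W : ℕ → Set (Fin M → α)) (κ : ℝ), 0 < κ →
      (∀ᶠ N in l, κ ≤ product w f N M (W N)) →
      (Independent w f l ↔ AtLeast w f l W ∧ Subexponential w f l W) ∧
      (Independent w f l ↔ AtLeast w f l W ∧ NoHotWords w f l W)) ∧
    (Q1 ↔ Independent one (fun n => cardFactors n) atTop) := by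
  refine ⟨?_, ?_, ?_, q1_iff⟩
  · intro V κ hκ hV
    rw [q1_iff]
    refine letters (fun n => cardFactors n) isWeight_one le_rfl hκ ?_
    filter_upwards [hV, eventually_ge_atTop 1] with N hN hN1
    rw [product_letters, le_div_iff₀ (by exact_mod_cast hN1)]
    exact hN
  · intro α f w hw l hl V κ hκ hV
    refine letters f hw hl hκ ?_
    filter_upwards [hV, hl (eventually_ge_atTop 1)] with N hN hN1
    have h1 : joint w f N 1 (Letters V N) = product w f N 1 (Letters V N) :=
      Pool.Agent.H201.PW.one_place w f N (V N)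
    have hT : 0 < ∑ n ∈ Icc 1 N, w n :=
      Finset.sum_pos (fun n _ => hw.1 n) ⟨1, mem_Icc.mpr ⟨le_rfl, hN1⟩⟩
    rw [← h1]
    unfold joint Letters
    rw [le_div_iff₀ hT]
    exact hN
  · intro α f w hw l hl M hM W κ hκ hW
    exact general f hw hl hM hκ hW

end Pool.Agent.Results.MP_e0aac0_nt.SubexponentialConstants
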